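import Mathlib
import Pool.Agent.W425.BF.Stm

set_option autoImplicit false

namespace Pool.Agent.W121.BF

open Pool.Agent.W425.BF
open Polynomial

/-- choice of the exponents -/
theorem choice {n : ℕ} (i : Fin n) {ι : Type} [Fintype ι] (w : ι → Fin n → ℤ) :
    ∃ M : ℕ, ∀ j, (∃ x, x ≠ i ∧ w j x ≠ 0) →
      ∑ x, (((if x = i then 0 else M ^ (x : ℕ) : ℕ)) : ℤ) * w j x ≠ 0 := by
  classical
  set P : ι → ℤ[X] := fun j => ∑ x ∈ Finset.univ.erase i, C (w j x) * X ^ (x : ℕ) with hP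
  have hc : ∀ j x, x ≠ i → (P j).coeff (x : ℕ) = w j x := by
    intro j x hx
    simp only [hP, finsetSum_coeff, coeff_C_mul, coeff_X_pow]
    rw [Finset.sum_eq_single x]
    · simp
    · intro y _ hyx
      have : (x : ℕ) ≠ (y : ℕ) := fun h => hyx (Fin.ext h).symm
      simp [this]
    · intro h
      exact absurd (Finset.mem_erase.2 ⟨hx, Finset.mem_univ _⟩) h
  set J : Finset ι := Finset.univ.filter (fun j => ∃ x, x ≠ i ∧ w j x ≠ 0) with hJ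
  have hne : ∀ j ∈ J, P j ≠ 0 := by
    intro j hj h0
    obtain ⟨x, hx, hwx⟩ := (Finset.mem_filter.1 hj).2
    apply hwx
    rw [← hc j x hx, h0, coeff_zero]
  have hprod : (∏ j ∈ J, P j) ≠ 0 := Finset.prod_ne_zero_iff.2 hne
  have hex : ∃ M : ℕ, (∏ j ∈ J, P j).eval (M : ℤ) ≠ 0 := by
    by_contra hcon
    push Not at hcon
    apply hprod
    apply Polynomial.eq_zero_of_infinite_isRoot
    apply Set.Infinite.mono (s := Set.range (fun M : ℕ => (M : ℤ)))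
    · rintro _ ⟨M, rfl⟩
      exact hcon M
    · exact Set.infinite_range_of_injective Nat.cast_injective
  obtain ⟨M, hM⟩ := hex
  refine ⟨M, fun j hj => ?_⟩
  rw [eval_prod, Finset.prod_ne_zero_iff] at hM
  have h1 := hM j (Finset.mem_filter.2 ⟨Finset.mem_univ _, hj⟩)
  have h2 : (P j).eval (M : ℤ) =
      ∑ x, (((if x = i then 0 else M ^ (x : ℕ) : ℕ)) : ℤ) * w j x := by
    simp only [hP, eval_finsetSum, eval_mul, eval_C, eval_pow, eval_X]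
    rw [← Finset.add_sum_erase Finset.univ _ (Finset.mem_univ i)]
    simp only [if_true, Nat.cast_zero, zero_mul, zero_add]
    apply Finset.sum_congr rfl
    intro x hx
    have hxi : x ≠ i := (Finset.mem_erase.1 hx).1
    simp only [hxi, if_false]
    push_cast
    ring
  rw [← h2]
  exact h1

theorem choice2 {n : ℕ} (i : Fin n) {T₁ T₂ : ℕ} (ray₁ : Fin T₁ → Fin n → ℕ) (N₁ : Fin T₁ → ℕ)
    (ray₂ : Fin T₂ → Fin n → ℕ) (N₂ : Fin T₂ → ℕ) (R : Finset (Fin T₁))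
    (h0 : ∀ q ∈ R, 0 < N₁ q) (h2 : ∀ q', ray₂ q' ≠ 0)
    (hp : ∀ q ∈ R, ∀ q', ¬ Par (ray₁ q) (ray₂ q')) :
    ∃ c : Fin n → ℕ, c i = 0 ∧ ∀ q ∈ R, ∀ q',
      ¬ (N₂ q' * ∑ x, ray₁ q x = N₁ q * ∑ x, ray₂ q' x ∧
        N₂ q' * ∑ x, c x * ray₁ q x = N₁ q * ∑ x, c x * ray₂ q' x) := by
  classical
  obtain ⟨M, hM⟩ := choice i (fun (s : Fin T₁ × Fin T₂) x =>
    (N₂ s.2 : ℤ) * ray₁ s.1 x - (N₁ s.1 : ℤ) * ray₂ s.2 x)
  refine ⟨fun x => if x = i then 0 else M ^ (x : ℕ), by simp, ?_⟩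
  rintro q hq q' ⟨e1, e2⟩
  have hs : ∑ x, ((N₂ q' : ℤ) * ray₁ q x - (N₁ q : ℤ) * ray₂ q' x) = 0 := by
    rw [Finset.sum_sub_distrib, ← Finset.mul_sum, ← Finset.mul_sum, sub_eq_zero]
    exact_mod_cast e1
  have hcs : ∑ x, (((if x = i then 0 else M ^ (x : ℕ) : ℕ)) : ℤ) *
      ((N₂ q' : ℤ) * ray₁ q x - (N₁ q : ℤ) * ray₂ q' x) = 0 := by
    have e3 : ((N₂ q' * ∑ x, (if x = i then 0 else M ^ (x : ℕ)) * ray₁ q x : ℕ) : ℤ) =
      ((N₁ q * ∑ x, (if x = i then 0 else M ^ (x : ℕ)) * ray₂ q' x : ℕ) : ℤ) := by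
      exact_mod_cast e2
    rw [Nat.cast_mul, Nat.cast_mul, Nat.cast_sum, Nat.cast_sum, Finset.mul_sum,
      Finset.mul_sum] at e3
    rw [← sub_eq_zero, ← Finset.sum_sub_distrib] at e3
    rw [← e3]
    apply Finset.sum_congr rfl
    intro x _
    rw [Nat.cast_mul, Nat.cast_mul]
    ring
  by_cases hx : ∃ x, x ≠ i ∧ (N₂ q' : ℤ) * ray₁ q x - (N₁ q : ℤ) * ray₂ q' x ≠ 0
  · exact hM (q, q') hx hcs
  · push Not at hx
    have hall : ∀ x, (N₂ q' : ℤ) * ray₁ q x - (N₁ q : ℤ) * ray₂ q' x = 0 := by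
      intro x
      by_cases hxi : x = i
      · subst hxi
        rw [← hs]
        symm
        apply Finset.sum_eq_single x
        · intro y _ hy
          exact hx y hy
        · intro h
          exact absurd (Finset.mem_univ x) h
      · exact hx x hxi
    have hall' : ∀ x, N₂ q' * ray₁ q x = N₁ q * ray₂ q' x := by
      intro x
      have := hall x
      rw [sub_eq_zero] at this
      exact_mod_cast this
    rcases Nat.eq_zero_or_pos (N₂ q') with hN | hN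
    · apply h2 q'
      funext x
      have h3 := hall' x
      rw [hN, zero_mul] at h3
      rcases Nat.mul_eq_zero.1 h3.symm with h4 | h4
      · exact absurd h4 (h0 q hq).ne'
      · exact h4
    · exact hp q hq q' ⟨N₂ q', N₁ q, hN, h0 q hq, hall'⟩

/-- the factor as a polynomial -/
noncomputable def Fp {n : ℕ} (p : ℕ) (c : Fin n → ℕ) (N : ℕ) (u : Fin n → ℕ) : ℂ[X][X] :=
  1 - C (C ((p : ℂ)⁻¹ ^ (∑ x, u x)) * X ^ (∑ x, c x * u x)) * X ^ N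

theorem ev2_mul (A B : ℂ[X][X]) (z t : ℂ) : ev2 (A * B) z t = ev2 A z t * ev2 B z t := by
  simp [ev2, eval₂_mul]

theorem ev2_sub (A B : ℂ[X][X]) (z t : ℂ) : ev2 (A - B) z t = ev2 A z t - ev2 B z t := by
  simp [ev2, eval₂_sub]

theorem ev2_prod {ι : Type} (s : Finset ι) (f : ι → ℂ[X][X]) (z t : ℂ) :
    ev2 (∏ q ∈ s, f q) z t = ∏ q ∈ s, ev2 (f q) z t := by
  unfold ev2
  exact eval₂_finsetProd _ s f t

theorem ev2_Fp {n : ℕ} (p : ℕ) (c : Fin n → ℕ) (N : ℕ) (u : Fin n → ℕ) (z t : ℂ) :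
    ev2 (Fp p c N u) z t = 1 - W2 p c N z t u := by
  unfold ev2 Fp W2
  simp [eval₂_sub, eval₂_mul, eval₂_pow, eval₂_one]

theorem inf_ball : {z : ℂ | ‖z‖ ≤ 1}.Infinite := by
  apply infinite_of_mem_nhds (0 : ℂ)
  have h := Metric.closedBall_mem_nhds (0 : ℂ) (ε := 1) one_pos
  have h2 : Metric.closedBall (0 : ℂ) 1 = {z : ℂ | ‖z‖ ≤ 1} := by
    ext z; simp
  rwa [h2] at h

theorem ev2_zero (G : ℂ[X][X]) (h : ∀ z t : ℂ, ‖z‖ ≤ 1 → ‖t‖ ≤ 1 → ev2 G z t = 0) : G = 0 := by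
  have h1 : ∀ z : ℂ, ‖z‖ ≤ 1 → G.map (evalRingHom z) = 0 := by
    intro z hz
    apply Polynomial.eq_zero_of_infinite_isRoot
    apply inf_ball.mono
    intro t ht
    have := h z t hz ht
    unfold ev2 at this
    show IsRoot _ _
    rw [IsRoot, eval_map]
    exact this
  ext1 k
  rw [coeff_zero]
  apply Polynomial.eq_zero_of_infinite_isRoot
  apply inf_ball.mono
  intro z hz
  have h2 := congrArg (fun P => P.coeff k) (h1 z hz)
  simp only [coeff_map, coeff_zero] at h2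
  exact h2

theorem relprime (a b : ℂ[X]) (N M : ℕ) (hN : 0 < N) (hab : a ^ M ≠ b ^ N) :
    IsRelPrime (1 - C a * X ^ N : ℂ[X][X]) (1 - C b * X ^ M) := by
  intro d h1 h2
  have h3 : (1 - C a * X ^ N : ℂ[X][X]) ∣ 1 - (C a * X ^ N) ^ M := one_sub_dvd_one_sub_pow _ _
  have h4 : (1 - C b * X ^ M : ℂ[X][X]) ∣ 1 - (C b * X ^ M) ^ N := one_sub_dvd_one_sub_pow _ _
  have h5 : d ∣ C (b ^ N) * (1 - (C a * X ^ N) ^ M) - C (a ^ M) * (1 - (C b * X ^ M) ^ N) :=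
    dvd_sub ((h1.trans h3).mul_left _) ((h2.trans h4).mul_left _)
  have h6 : C (b ^ N) * (1 - (C a * X ^ N) ^ M) - C (a ^ M) * (1 - (C b * X ^ M) ^ N) =
      C (b ^ N - a ^ M) := by
    rw [mul_pow, mul_pow, ← pow_mul, ← pow_mul, mul_comm M N, C_sub, C_pow, C_pow]
    ring
  rw [h6] at h5
  have hg : b ^ N - a ^ M ≠ 0 := sub_ne_zero.2 (Ne.symm hab)
  have h7 : (C (b ^ N - a ^ M) : ℂ[X][X]) ≠ 0 := C_ne_zero.2 hg
  have h8 : d.natDegree = 0 := by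
    have := natDegree_le_of_dvd h5 h7
    rw [natDegree_C] at this
    omega
  obtain ⟨δ, rfl⟩ := natDegree_eq_zero.1 h8
  have h9 := (C_dvd_iff_dvd_coeff _ _).1 h1 0
  have h10 : (1 - C a * X ^ N : ℂ[X][X]).coeff 0 = 1 := by
    rw [coeff_sub, coeff_one_zero, coeff_C_mul, coeff_X_pow]
    simp [hN.ne]
  rw [h10] at h9
  exact (isUnit_of_dvd_one h9).map C

theorem pow_ne {p : ℕ} (hp : 2 ≤ p) (A₁ B₁ A₂ B₂ N M : ℕ)
    (h : ¬ (M * A₁ = N * A₂ ∧ M * B₁ = N * B₂)) :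
    (C ((p : ℂ)⁻¹ ^ A₁) * X ^ B₁ : ℂ[X]) ^ M ≠ (C ((p : ℂ)⁻¹ ^ A₂) * X ^ B₂) ^ N := by
  intro he
  apply h
  have hp0 : (p : ℂ) ≠ 0 := by
    exact_mod_cast (by omega : p ≠ 0)
  have he2 : (C ((p : ℂ)⁻¹ ^ (M * A₁)) * X ^ (M * B₁) : ℂ[X]) =
      C ((p : ℂ)⁻¹ ^ (N * A₂)) * X ^ (N * B₂) := by
    rw [mul_pow, mul_pow, ← C_pow, ← C_pow, ← pow_mul, ← pow_mul, ← pow_mul, ← pow_mul] at he
    rw [mul_comm M A₁, mul_comm M B₁, mul_comm N A₂, mul_comm N B₂]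
    exact he
  constructor
  · have h1 := congrArg (fun P => P.eval 1) he2
    simp only [eval_mul, eval_C, eval_pow, eval_X, one_pow, mul_one] at h1
    rw [inv_pow, inv_pow, inv_inj] at h1
    have h2 : p ^ (M * A₁) = p ^ (N * A₂) := by exact_mod_cast h1
    exact Nat.pow_right_injective hp h2
  · have h1 := congrArg (fun P => P.natDegree) he2
    rw [natDegree_C_mul_X_pow _ _ (pow_ne_zero _ (inv_ne_zero hp0)),
      natDegree_C_mul_X_pow _ _ (pow_ne_zero _ (inv_ne_zero hp0))] at h1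
    exact h1

theorem main : TaskALG := by
  intro n i T₁ T₂ ray₁ N₁ ray₂ N₂ R h0 h2 hpar
  obtain ⟨c, hci, hc⟩ := choice2 i ray₁ N₁ ray₂ N₂ R h0 h2 hpar
  refine ⟨c, hci, ?_⟩
  intro p hp A B hAB
  have hG : A * ∏ q', Fp p c (N₂ q') (ray₂ q') - B * ∏ q, Fp p c (N₁ q) (ray₁ q) = 0 := by
    apply ev2_zero
    intro z t hz ht
    rw [ev2_sub, ev2_mul, ev2_mul, ev2_prod, ev2_prod, sub_eq_zero]
    simp only [ev2_Fp]
    exact hAB z t hz ht
  rw [sub_eq_zero] at hG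
  have hrel : IsRelPrime (∏ q ∈ R, Fp p c (N₁ q) (ray₁ q)) (∏ q', Fp p c (N₂ q') (ray₂ q')) := by
    apply IsRelPrime.prod_left
    intro q hq
    apply IsRelPrime.prod_right
    intro q' _
    unfold Fp
    apply relprime _ _ _ _ (h0 q hq)
    exact pow_ne hp _ _ _ _ _ _ (hc q hq q')
  have hdvd : (∏ q ∈ R, Fp p c (N₁ q) (ray₁ q)) ∣ A * ∏ q', Fp p c (N₂ q') (ray₂ q') := by
    rw [hG]
    exact (Finset.prod_dvd_prod_of_subset _ _ _ (Finset.subset_univ R)).mul_left _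
  have hA := hrel.dvd_of_dvd_mul_right hdvd
  obtain ⟨A'', hA''⟩ := hA
  refine ⟨A''.map (evalRingHom 1), fun t => ?_⟩
  rw [hA'', ev2_mul, ev2_prod, eval_map]
  simp only [ev2_Fp]
  rw [mul_comm]
  rfl

end Pool.Agent.W121.BF
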